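import Mathlib
import Pool.Agent.H.MP_1b52a3_lc.B

namespace Pool.Agent.Results.MP_1b52a3_lc.Q1

open MeasureTheory Pool.Agent.H.MP_190226_lc Pool.Agent.H.MP_1b52a3_lc

theorem result (X : Type) [MeasurableSpace X] [StandardBorelSpace X] (μ : Measure X)
    [IsProbabilityMeasure μ] [NullSingletonClass μ] (T₀ : X ≃ᵐ X)
    (hT : MeasurePreserving T₀ μ μ) :
    ¬ ∃ f : Aut μ → FG μ T₀, Measurable f ∧
      ∀ S S', ConjA μ S S' ↔ ConjF μ T₀ (f S) (f S') := by
  rintro ⟨f, mf, h⟩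
  exact main hT (fun S => f S.1) (mf.comp measurable_subtype_coe) fun S S' => h S.1 S'.1

end Pool.Agent.Results.MP_1b52a3_lc.Q1
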