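import Mathlib
import Pool.Agent.H.MP_1b52a3_lc.B

namespace Pool.Agent.Results.MP_1b52a3_lc.Q2

open MeasureTheory Pool.Agent.H.MP_190226_lc Pool.Agent.H.MP_1b52a3_lc

theorem result (X : Type) [MeasurableSpace X] [StandardBorelSpace X] (μ : Measure X)
    [IsProbabilityMeasure μ] [NullSingletonClass μ] (T₀ : X ≃ᵐ X)
    (hT : MeasurePreserving T₀ μ μ) :
    ¬ ∃ f : {S : Aut μ // Ergodic S.1 μ} → {U : FG μ T₀ // Ergodic U.1 μ}, Measurable f ∧
      ∀ S S', ConjA μ S.1 S'.1 ↔ ConjF μ T₀ (f S).1 (f S').1 := by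
  rintro ⟨f, mf, h⟩
  exact main hT (fun S => (f S).1) (measurable_subtype_coe.comp mf) h

end Pool.Agent.Results.MP_1b52a3_lc.Q2
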